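import Pool.Agent.N202.TB.Stm

/-!
# The logarithm of a Kronecker power (TB/2, helper618)
-/

set_option linter.unusedSectionVars false
set_option autoImplicit false

namespace Pool.Agent.N618.TB

open Matrix Filter Topology
open Pool.Agent.N996.BP Pool.Agent.N202.TB

section

variable {ℓ : ℕ} [Fact ℓ.Prime]

lemma add_le' {x y : ℚ_[ℓ]} {q : ℝ} (hx : ‖x‖ ≤ q) (hy : ‖y‖ ≤ q) : ‖x + y‖ ≤ q :=
  (IsUltrametricDist.norm_add_le_max x y).trans (max_le hx hy)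

lemma prod_le_one {κ : Type} (s : Finset κ) (a : κ → ℚ_[ℓ]) (h : ∀ k, ‖a k‖ ≤ 1) :
    ‖∏ k ∈ s, a k‖ ≤ 1 := by
  rw [norm_prod]
  exact Finset.prod_le_one (fun _ _ => norm_nonneg _) fun k _ => h k

lemma prod_near {κ : Type} [DecidableEq κ] (s : Finset κ) (a d : κ → ℚ_[ℓ]) {q : ℝ} (hq : 0 ≤ q)
    (ha : ∀ k, ‖a k‖ ≤ 1) (hd : ∀ k, ‖d k‖ ≤ 1) (h : ∀ k, ‖a k - d k‖ ≤ q) :
    ‖∏ k ∈ s, a k - ∏ k ∈ s, d k‖ ≤ q := by
  induction s using Finset.induction_on with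
  | empty => simpa using hq
  | insert x s hx ih =>
    rw [Finset.prod_insert hx, Finset.prod_insert hx]
    have e : a x * ∏ k ∈ s, a k - d x * ∏ k ∈ s, d k
        = (a x - d x) * ∏ k ∈ s, a k + d x * (∏ k ∈ s, a k - ∏ k ∈ s, d k) := by ring
    rw [e]
    refine add_le' ?_ ?_
    · rw [norm_mul]
      calc ‖a x - d x‖ * ‖∏ k ∈ s, a k‖ ≤ q * 1 :=
            mul_le_mul (h x) (prod_le_one s a ha) (norm_nonneg _) hq
        _ = q := mul_one q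
    · rw [norm_mul]
      calc ‖d x‖ * ‖∏ k ∈ s, a k - ∏ k ∈ s, d k‖ ≤ 1 * q :=
            mul_le_mul (hd x) ih (norm_nonneg _) zero_le_one
        _ = q := one_mul q

lemma q_nonneg : (0 : ℝ) ≤ ((ℓ : ℝ) ^ 2)⁻¹ := by positivity

lemma q_lt : ((ℓ : ℝ) ^ 2)⁻¹ < 1 := by
  have h : (2 : ℝ) ≤ ℓ := by exact_mod_cast (Fact.out : ℓ.Prime).two_le
  rw [inv_lt_one₀ (by positivity)]
  nlinarith

lemma norm_one_of_near {c : ℚ_[ℓ]} (h : ‖c - 1‖ ≤ ((ℓ : ℝ) ^ 2)⁻¹) : ‖c‖ = 1 := by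
  have h1 : ‖c - 1‖ < ‖(1 : ℚ_[ℓ])‖ := by rw [norm_one]; exact h.trans_lt q_lt
  have h2 : ‖(c - 1) + 1‖ = max ‖c - 1‖ ‖(1 : ℚ_[ℓ])‖ :=
    IsUltrametricDist.norm_add_eq_max_of_norm_ne_norm h1.ne
  rw [sub_add_cancel, max_eq_right h1.le, norm_one] at h2
  exact h2

/-- `f k → d` with speed `ℓ ^ k` and coefficient `y` -/
def PR (f : ℕ → ℚ_[ℓ]) (d y : ℚ_[ℓ]) : Prop :=
  Tendsto (fun k : ℕ => ((ℓ : ℚ_[ℓ]) ^ k)⁻¹ * (f k - d)) atTop (𝓝 y)

lemma tendsto_pow : Tendsto (fun k : ℕ => (ℓ : ℚ_[ℓ]) ^ k) atTop (𝓝 0) := by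
  apply tendsto_pow_atTop_nhds_zero_of_norm_lt_one
  exact Padic.norm_p_lt_one

lemma l_ne : (ℓ : ℚ_[ℓ]) ≠ 0 := by
  exact_mod_cast (Fact.out : ℓ.Prime).ne_zero

lemma PR.tendsto {f : ℕ → ℚ_[ℓ]} {d y : ℚ_[ℓ]} (h : PR f d y) : Tendsto f atTop (𝓝 d) := by
  have h1 := (tendsto_pow (ℓ := ℓ)).mul h
  rw [zero_mul] at h1
  have h2 : Tendsto (fun k => f k - d) atTop (𝓝 0) := by
    refine h1.congr fun k => ?_
    rw [← mul_assoc, mul_inv_cancel₀ (pow_ne_zero k l_ne), one_mul]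
  have h3 := h2.add_const d
  simpa using h3

lemma PR.mul {f f' : ℕ → ℚ_[ℓ]} {d d' y y' : ℚ_[ℓ]} (h : PR f d y) (h' : PR f' d' y') :
    PR (fun k => f k * f' k) (d * d') (y * d' + d * y') := by
  have h1 := (Filter.Tendsto.mul h h'.tendsto).add (Filter.Tendsto.const_mul d h')
  refine h1.congr fun k => ?_
  ring

lemma PR.const (d : ℚ_[ℓ]) : PR (fun _ => d) d 0 := by
  unfold PR
  simp

lemma PR.prod {κ : Type} [DecidableEq κ] (s : Finset κ) (f : κ → ℕ → ℚ_[ℓ]) (d y : κ → ℚ_[ℓ])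
    (h : ∀ i, PR (f i) (d i) (y i)) :
    PR (fun k => ∏ i ∈ s, f i k) (∏ i ∈ s, d i) (∑ i ∈ s, y i * ∏ j ∈ s.erase i, d j) := by
  induction s using Finset.induction_on with
  | empty => simpa using PR.const (1 : ℚ_[ℓ])
  | insert x s hx ih =>
    simp only [Finset.prod_insert hx, Finset.sum_insert hx, Finset.erase_insert hx]
    have : ∑ k ∈ s, y k * ∏ j ∈ (insert x s).erase k, d j
        = d x * ∑ k ∈ s, y k * ∏ j ∈ s.erase k, d j := by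
      rw [Finset.mul_sum]
      refine Finset.sum_congr rfl fun k hk => ?_
      have hkx : k ≠ x := fun h => hx (h ▸ hk)
      rw [Finset.erase_insert_of_ne hkx.symm,
        Finset.prod_insert (fun h => hx (Finset.mem_of_mem_erase h))]
      ring
    rw [this]
    exact (h x).mul ih

lemma PR.pow {f : ℕ → ℚ_[ℓ]} {y : ℚ_[ℓ]} (h : PR f 1 y) (j : ℕ) :
    PR (fun k => f k ^ j) 1 (j * y) := by
  induction j with
  | zero => simpa using PR.const (1 : ℚ_[ℓ])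
  | succ j ih =>
    have h1 := ih.mul h
    simp only [pow_succ]
    rw [mul_one, mul_one, one_mul] at h1
    convert h1 using 1
    push_cast
    ring

lemma PR.inv {f : ℕ → ℚ_[ℓ]} {y : ℚ_[ℓ]} (h : PR f 1 y) (h0 : ∀ k, f k ≠ 0) :
    PR (fun k => (f k)⁻¹) 1 (-y) := by
  have h1 := (Filter.Tendsto.neg h).mul (h.tendsto.inv₀ one_ne_zero)
  rw [inv_one, mul_one] at h1
  refine h1.congr fun k => ?_
  have := h0 k
  field_simp
  ring

end

theorem kplog_ : S_KPLOG := by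
  intro ℓ _ ι _ _ κ _ _ g y c lam j hg hy hc hlam
  have hc1 : ‖c‖ = 1 := norm_one_of_near hc
  have hc0 : c ≠ 0 := by
    intro h
    rw [h, norm_zero] at hc1
    exact zero_ne_one hc1
  have hone : ∀ a b : ι, ‖(1 : Matrix ι ι ℚ_[ℓ]) a b‖ ≤ 1 := by
    intro a b
    rw [Matrix.one_apply]
    split_ifs <;> simp
  have hg1 : ∀ a b : ι, ‖g a b‖ ≤ 1 := by
    intro a b
    have : g a b = (g a b - (1 : Matrix ι ι ℚ_[ℓ]) a b) + (1 : Matrix ι ι ℚ_[ℓ]) a b := by ring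
    rw [this]
    exact add_le' ((hg a b).trans q_lt.le) (hone a b)
  have hcj : ‖c ^ j - 1‖ ≤ ((ℓ : ℝ) ^ 2)⁻¹ := by
    have := prod_near (Finset.univ : Finset (Fin j)) (fun _ => c) (fun _ => 1) (q_nonneg (ℓ := ℓ))
      (fun _ => hc1.le) (fun _ => by simp) (fun _ => hc)
    simpa using this
  have hcj1 : ‖(c ^ j)⁻¹‖ = 1 := by rw [norm_inv, norm_pow, hc1, one_pow, inv_one]
  have hcji : ‖(c ^ j)⁻¹ - 1‖ ≤ ((ℓ : ℝ) ^ 2)⁻¹ := by
    have : (c ^ j)⁻¹ - 1 = -((c ^ j)⁻¹ * (c ^ j - 1)) := by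
      have := pow_ne_zero j hc0
      field_simp
      ring
    rw [this, norm_neg, norm_mul, hcj1, one_mul]
    exact hcj
  constructor
  · intro v w
    rw [Matrix.smul_apply, smul_eq_mul, ← kp_one (κ := κ), kp_apply, kp_apply]
    have e : (c ^ j)⁻¹ * ∏ k, g (v k) (w k) - ∏ k, (1 : Matrix ι ι ℚ_[ℓ]) (v k) (w k)
        = ((c ^ j)⁻¹ - 1) * ∏ k, g (v k) (w k)
          + (∏ k, g (v k) (w k) - ∏ k, (1 : Matrix ι ι ℚ_[ℓ]) (v k) (w k)) := by ring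
    rw [e]
    refine add_le' ?_ ?_
    · rw [norm_mul]
      calc ‖(c ^ j)⁻¹ - 1‖ * ‖∏ k, g (v k) (w k)‖ ≤ ((ℓ : ℝ) ^ 2)⁻¹ * 1 :=
            mul_le_mul hcji (prod_le_one _ _ fun k => hg1 _ _) (norm_nonneg _) q_nonneg
        _ = _ := mul_one _
    · exact prod_near _ _ _ q_nonneg (fun k => hg1 _ _) (fun k => hone _ _) fun k => hg _ _
  · intro v w
    have hkp : ∀ s : ℕ, kp κ g ^ s = kp κ (g ^ s) := by
      intro s
      induction s with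
      | zero => rw [pow_zero, pow_zero, kp_one]
      | succ s ih => rw [pow_succ, pow_succ, kp_mul, ih]
    have h1 : PR (fun k => (((c ^ (ℓ ^ k)) ^ j)⁻¹)) 1 (-(j * lam)) :=
      (PR.pow (f := fun k => c ^ (ℓ ^ k)) hlam j).inv fun k => pow_ne_zero _ (pow_ne_zero _ hc0)
    have h2 := PR.prod (Finset.univ : Finset κ) (fun a k => (g ^ (ℓ ^ k)) (v a) (w a))
      (fun a => (1 : Matrix ι ι ℚ_[ℓ]) (v a) (w a)) (fun a => y (v a) (w a))
      (fun a => hy (v a) (w a))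
    have h3 := h1.mul h2
    have e1 : ∀ k : ℕ, (((c ^ j)⁻¹ • kp κ g) ^ (ℓ ^ k)) v w
        = ((c ^ (ℓ ^ k)) ^ j)⁻¹ * ∏ a, (g ^ (ℓ ^ k)) (v a) (w a) := by
      intro k
      rw [smul_pow, hkp, Matrix.smul_apply, smul_eq_mul, kp_apply, inv_pow, ← pow_mul, ← pow_mul,
        mul_comm j]
    have e2 : ∏ a, (1 : Matrix ι ι ℚ_[ℓ]) (v a) (w a) = (1 : Matrix (κ → ι) (κ → ι) ℚ_[ℓ]) v w := by
      rw [← kp_one (κ := κ), kp_apply]
    simp only [e1]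
    rw [e2] at h3
    unfold PR at h3
    convert h3 using 2
    · rw [one_mul]
    · simp only [Matrix.sub_apply, Matrix.smul_apply, smul_eq_mul, dp, Matrix.of_apply,
        Matrix.one_apply, one_mul]
      ring

end Pool.Agent.N618.TB
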