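import Pool.Agent.N202.TB.Stm

/-!
# Derivations of arrays, algebra (TB/3, helper618)
-/

set_option linter.unusedSectionVars false
set_option autoImplicit false

namespace Pool.Agent.N618.TB

open Matrix Filter Topology
open Pool.Agent.N996.BP Pool.Agent.N202.TB

section dual

variable {R : Type} [CommRing R]

/-- matrix over the dual numbers -/
def mk {m n : Type} (A B : Matrix m n R) : Matrix m n (DualNumber R) :=
  Matrix.of fun i j => TrivSqZeroExt.inl (A i j) + TrivSqZeroExt.inr (B i j)

lemma mk_fst {m n : Type} (A B : Matrix m n R) (i : m) (j : n) : (mk A B i j).fst = A i j := by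
  simp [mk]

lemma mk_snd {m n : Type} (A B : Matrix m n R) (i : m) (j : n) : (mk A B i j).snd = B i j := by
  simp [mk]

lemma mk_inj {m n : Type} {A B C D : Matrix m n R} (h : mk A B = mk C D) : B = D := by
  ext i j
  rw [← mk_snd A B, h, mk_snd]

lemma mk_mul {m n p : Type} [Fintype n] (A B : Matrix m n R) (C D : Matrix n p R) :
    mk A B * mk C D = mk (A * C) (A * D + B * C) := by
  ext i j
  · simp only [Matrix.mul_apply, TrivSqZeroExt.fst_sum, mk_fst, TrivSqZeroExt.fst_mul]
  · simp only [Matrix.mul_apply, TrivSqZeroExt.snd_sum, mk_snd, mk_fst, TrivSqZeroExt.snd_mul,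
      Matrix.add_apply, Finset.sum_add_distrib, smul_eq_mul, MulOpposite.smul_eq_mul_unop,
      MulOpposite.unop_op]

lemma mk_transpose {m n : Type} (A B : Matrix m n R) : (mk A B)ᵀ = mk Aᵀ Bᵀ := rfl

variable {ι : Type} [Fintype ι] [DecidableEq ι]

lemma prod_dual {κ : Type} [DecidableEq κ] (s : Finset κ) (a b : κ → R) :
    ∏ k ∈ s, (TrivSqZeroExt.inl (a k) + TrivSqZeroExt.inr (b k) : DualNumber R)
      = TrivSqZeroExt.inl (∏ k ∈ s, a k) +
        TrivSqZeroExt.inr (∑ k ∈ s, b k * ∏ j ∈ s.erase k, a j) := by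
  induction s using Finset.induction_on with
  | empty => simp
  | insert x s hx ih =>
    rw [Finset.prod_insert hx, ih, Finset.prod_insert hx, Finset.sum_insert hx,
      Finset.erase_insert hx]
    have : ∑ k ∈ s, b k * ∏ j ∈ (insert x s).erase k, a j
        = a x * ∑ k ∈ s, b k * ∏ j ∈ s.erase k, a j := by
      rw [Finset.mul_sum]
      refine Finset.sum_congr rfl fun k hk => ?_
      have hkx : k ≠ x := fun h => hx (h ▸ hk)
      rw [Finset.erase_insert_of_ne hkx.symm,
        Finset.prod_insert (fun h => hx (Finset.mem_of_mem_erase h))]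
      ring
    rw [this]
    ext
    · simp
    · simp
      ring

lemma kp_mk {κ : Type} [Fintype κ] [DecidableEq κ] (y : Matrix ι ι R) :
    kp κ (mk 1 y) = mk 1 (dp κ y) := by
  ext v w
  · rw [← kp_one (κ := κ), kp_apply]
    unfold mk
    simp only [Matrix.of_apply]
    rw [prod_dual]
    simp [kp_apply]
  · rw [kp_apply, mk_snd]
    unfold mk
    simp only [Matrix.of_apply]
    rw [prod_dual]
    simp [dp, Matrix.one_apply]

lemma kp_mk0 {κ : Type} [Fintype κ] [DecidableEq κ] (B : Matrix ι ι R) :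
    kp κ (mk B 0) = mk (kp κ B) 0 := by
  ext v w
  · rw [kp_apply, mk_fst]
    unfold mk
    simp only [Matrix.of_apply]
    rw [prod_dual]
    simp [kp_apply]
  · rw [kp_apply, mk_snd]
    unfold mk
    simp only [Matrix.of_apply]
    rw [prod_dual]
    simp

/-- the vector over the dual numbers -/
def vk {m : Type} (a : m → R) : m → DualNumber R := fun i => TrivSqZeroExt.inl (a i)

lemma snd_mulVec {m n : Type} [Fintype n] (A B : Matrix m n R) (a : n → R) (i : m) :
    ((mk A B *ᵥ vk a) i).snd = (B *ᵥ a) i := by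
  simp only [Matrix.mulVec, dotProduct, TrivSqZeroExt.snd_sum, TrivSqZeroExt.snd_mul, mk_snd,
    mk_fst, vk, TrivSqZeroExt.snd_inl, TrivSqZeroExt.fst_inl, smul_zero, zero_add,
    MulOpposite.smul_eq_mul_unop, MulOpposite.unop_op]

end dual

theorem dplin_ : S_DPLIN := by
  intro R _ ι _ _ κ _ _ c x y
  ext v w
  simp only [dp, Matrix.of_apply, Matrix.add_apply, Matrix.smul_apply, smul_eq_mul, add_mul,
    Finset.sum_add_distrib, Finset.mul_sum]
  congr 1
  exact Finset.sum_congr rfl fun k _ => by ring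

theorem dparr_ : S_DPARR := by
  intro R _ ι _ _ κ l _ _ _ _ y M
  have h := kp_arr (κ := κ) (l := l) (mk 1 y) (mk M 0)
  rw [kp_mk, kp_mk, kp_mk, mk_mul, mk_transpose, mk_mul] at h
  funext i
  have e : arr (mk M 0) = vk (arr M) := by
    funext j
    simp [arr, mk, vk]
  rw [e] at h
  rw [← snd_mulVec 1, h]
  simp only [arr, mk_snd]
  rw [Matrix.transpose_one, Matrix.mul_one, Matrix.one_mul, Matrix.mul_zero, zero_add, add_comm]

theorem dprei_ : S_DPREI := by
  intro R _ ι _ _ κ l _ _ _ _ e y a
  have h := kp_rei e (mk 1 y) (vk a)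
  rw [kp_mk, kp_mk] at h
  funext i
  have e' : rei e (vk a) = vk (rei e a) := rfl
  rw [← snd_mulVec 1, ← e', h]
  simp only [rei]
  rw [snd_mulVec]

theorem dpskew_ : S_DPSKEW := by
  intro R _ ι _ _ κ _ _ y B h
  have h1 : mk 1 y * mk B 0 * (mk 1 y)ᵀ = mk B 0 := by
    rw [mk_transpose, mk_mul, mk_mul]
    simp only [Matrix.transpose_one, one_mul, mul_one, mul_zero, zero_add]
    rw [add_comm, h]
  have h2 := congrArg (kp κ) h1
  rw [kp_mul, kp_mul, kp_transpose, kp_mk, kp_mk0, mk_transpose, mk_mul, mk_mul] at h2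
  have h3 := mk_inj h2
  simp only [Matrix.transpose_one, one_mul, mul_one, mul_zero, zero_add] at h3
  rw [add_comm, h3]

theorem dpdiag_ : S_DPDIAG := by
  intro R _ ι _ _ κ _ _ d a
  have h : dp κ (Matrix.diagonal d) = Matrix.diagonal fun w => ∑ k, d (w k) := by
    ext v w
    by_cases hvw : v = w
    · subst hvw
      simp [dp]
    · rw [Matrix.diagonal_apply_ne _ hvw]
      simp only [dp, Matrix.of_apply]
      refine Finset.sum_eq_zero fun k _ => ?_
      obtain ⟨j, hj⟩ := Function.ne_iff.1 hvw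
      by_cases hk : k = j
      · subst hk
        rw [Matrix.diagonal_apply_ne _ hj, zero_mul]
      · rw [Finset.prod_eq_zero (Finset.mem_erase.2 ⟨fun h => hk h.symm, Finset.mem_univ j⟩)
          (if_neg hj), mul_zero]
  rw [h]
  funext w
  rw [Matrix.mulVec_diagonal]

theorem dptwo_ : S_DPTWO := by
  intro R _ ι _ _ y A
  funext v
  simp only [Matrix.mulVec, dotProduct, dp, Matrix.of_apply, Fin.sum_univ_two]
  have e0 : (Finset.univ : Finset (Fin 2)).erase 0 = {1} := by decide
  have e1 : (Finset.univ : Finset (Fin 2)).erase 1 = {0} := by decide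
  rw [e0, e1]
  simp only [Finset.prod_singleton]
  rw [← Equiv.sum_comp (finTwoArrowEquiv ι).symm, Fintype.sum_prod_type]
  simp only [finTwoArrowEquiv_symm_apply, Matrix.cons_val_zero, Matrix.cons_val_one,
    Matrix.add_apply, Matrix.mul_apply, Matrix.transpose_apply, add_mul, Finset.sum_add_distrib,
    mul_ite, mul_one, mul_zero, ite_mul, zero_mul, Finset.sum_ite_eq, Finset.mem_univ, if_true]
  congr 1
  rw [Finset.sum_comm]
  simp [mul_comm]

end Pool.Agent.N618.TB
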